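import Pool.Agent.H566.NLMain

/-!
# Goldbach's problem in totient form for the integers `n` for which `ψ(n)` is in a tiny arc modulo one, for
# arbitrary real sequences `ψ` without correlations with linear phases

Let `ψ` be an ARBITRARY sequence of real numbers (it may depend on `X`) such that the sums
`∑_{n ≤ X} e(k ψ(n) + t n)` are smaller than `X / K` by a power of `X` on average over the multiples `k ψ`,
`1 ≤ k ≤ K`, for all real `t`. Then for every arc of length `2 δ ≥ 8 / K` modulo one, which may be as small as a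
power `X ^ (-θ)`, almost all of the integers `n ≤ X` for which `ψ(n)` is in the arc have the following property:
in ALL intervals `(y₁, y₂] ⊆ [-n, n]` of length at least `2 n / (log 2 n) ^ W` the system
`φ(n - x) + 1 = n - x`, `φ(n + x) + 1 = n + x` has the number of solutions `x` predicted by Hardy and Littlewood.
There are at least `δ X / 51` such `n`.

Examples: polynomials `ψ` of degree at least `2` with a leading coefficient of finite type; real powers `n ^ c`.
For linear `ψ` the set of these `n` has a large additive energy, and the hypothesis is violated.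

Definition from the starting files (in `Pool.Agent.H560R3.GB`): `sing m = 2 C₂ ∏_{p ∣ m, p > 2} (p - 1) / (p - 2)` with
`C₂ = ∏_{p > 2} (1 - 1 / (p - 1) ^ 2)`.

Proof. (1) The number of the `n` with `ψ(n)` in the arc is bounded from below by means of the trigonometric
polynomial `|D(y)|⁴ (cos 2 π y - cos 2 π δ)`, where `D` is the Dirichlet kernel of length `⌈1 / δ⌉`; it is negative
outside the arc. (2) For their additive energy of order `h > 1 / ε` we use the majorant `|D|²` of the arc and the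
finite Fourier transform: the energy is nearly minimal. (3) The theorem `fam_win` of the starting files on families
of nearly minimal energy is applied.
-/

set_option autoImplicit false

namespace Pool.Agent.Results.MP_967f73_nt.ArcTargets

open Finset
open Pool.Agent.H560R3.GB (sing)

/-- The distance of a real number to the nearest integer. -/
noncomputable def distInt (x : ℝ) : ℝ := |x - round x|

/-- `x` is an integral solution of the system `φ(n - x) + 1 = n - x`, `φ(n + x) + 1 = n + x`. -/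
def Solution (n : ℕ) (x : ℤ) : Prop :=
  1 ≤ (n : ℤ) - x ∧ 1 ≤ (n : ℤ) + x ∧ (Nat.totient ((n : ℤ) - x).toNat : ℤ) + 1 = (n : ℤ) - x ∧
    (Nat.totient ((n : ℤ) + x).toNat : ℤ) + 1 = (n : ℤ) + x

open Classical in
/-- The number of solutions `y₁ < x ≤ y₂`. -/
noncomputable def count (n : ℕ) (y₁ y₂ : ℤ) : ℕ := ((Ioc y₁ y₂).filter (fun x => Solution n x)).card

/-- Every interval `(y₁, y₂] ⊆ [-n, n]` of length at least `2 n / (log 2 n) ^ W` contains the predicted number
`𝔖(2 n) (y₂ - y₁) / (log 2 n)²` of solutions, up to a relative error of at most `η`. -/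
def Good (η : ℝ) (W n : ℕ) : Prop :=
  ∀ y₁ y₂ : ℤ, -(n : ℤ) ≤ y₁ → y₁ < y₂ → y₂ ≤ n → (2 * n : ℝ) / Real.log (2 * n) ^ W ≤ (y₂ : ℝ) - y₁ →
    |(count n y₁ y₂ : ℝ) - sing (2 * n) * ((y₂ : ℝ) - y₁) / Real.log (2 * n) ^ 2| ≤
      η * (sing (2 * n) * ((y₂ : ℝ) - y₁) / Real.log (2 * n) ^ 2)

/-- `∑_{k ≤ K} |∑_{n ≤ X} e(k ψ(n) + t n)| ≤ X ^ (1 - ε)` for all real `t`, where `e(x) = exp(2 π i x)`. -/
def Uncorrelated (ε : ℝ) (X K : ℕ) (ψ : ℕ → ℝ) : Prop :=
  ∀ t : ℝ, ∑ k ∈ Icc 1 K, ‖∑ n ∈ Icc 1 X, Complex.exp (2 * Real.pi * Complex.I * ((k * ψ n + t * n : ℝ) : ℂ))‖ ≤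
    (X : ℝ) ^ (1 - ε)

open Classical in
/-- The integers `1 ≤ n ≤ X` for which `ψ(n)` is at a distance of at most `δ` from `β`, modulo one. -/
noncomputable def target (X : ℕ) (ψ : ℕ → ℝ) (β δ : ℝ) : Finset ℕ :=
  (Icc 1 X).filter (fun n => distInt (ψ n - β) ≤ δ)

lemma tot_prime (m : ℕ) (h1 : 1 ≤ m) (h : m.totient + 1 = m) : m.Prime := by
  have h2 : 2 ≤ m := by
    rcases Nat.lt_or_ge m 2 with h3 | h3
    · have : m = 1 := by omega
      rw [this, Nat.totient_one] at h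
      omega
    · exact h3
  exact (Nat.totient_eq_iff_prime (by omega)).1 (by omega)

lemma sol_iff (n : ℕ) (x : ℤ) (hx1 : -(n : ℤ) < x) (hx2 : x ≤ n) :
    Solution n x ↔ ((n : ℤ) + x).toNat.Prime ∧ (2 * n - ((n : ℤ) + x).toNat).Prime := by
  obtain ⟨u, hu⟩ : ∃ u : ℕ, (u : ℤ) = (n : ℤ) + x := ⟨((n : ℤ) + x).toNat, by omega⟩
  obtain ⟨v, hv⟩ : ∃ v : ℕ, (v : ℤ) = (n : ℤ) - x := ⟨((n : ℤ) - x).toNat, by omega⟩
  have hu' : ((n : ℤ) + x).toNat = u := by omega
  have hv' : ((n : ℤ) - x).toNat = v := by omega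
  have huv : 2 * n - u = v := by omega
  unfold Solution
  rw [hu', hv', huv, ← hu, ← hv]
  constructor
  · rintro ⟨h1, h2, h3, h4⟩
    exact ⟨tot_prime u (by omega) (by omega), tot_prime v (by omega) (by omega)⟩
  · rintro ⟨h1, h2⟩
    have a1 := h1.one_lt
    have a2 := h2.one_lt
    refine ⟨by omega, by omega, ?_, ?_⟩
    · rw [Nat.totient_prime h2]
      omega
    · rw [Nat.totient_prime h1]
      omega

lemma count_eq (n : ℕ) (y₁ y₂ : ℤ) (h1 : -(n : ℤ) ≤ y₁) (h3 : y₂ ≤ n) (u₁ u₂ : ℕ)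
    (hu1 : (u₁ : ℤ) = (n : ℤ) + y₁) (hu2 : (u₂ : ℤ) = (n : ℤ) + y₂) :
    Pool.Agent.W93.PG.cnt (2 * n) u₁ u₂ = count n y₁ y₂ := by
  classical
  unfold Pool.Agent.W93.PG.cnt count
  refine card_bij (fun (p : ℕ) _ => (p : ℤ) - n) ?_ ?_ ?_
  · intro p hp
    rw [mem_filter, mem_Ioc] at hp
    obtain ⟨⟨a1, a2⟩, a3, a4⟩ := hp
    rw [mem_filter, mem_Ioc]
    refine ⟨⟨by omega, by omega⟩, ?_⟩
    rw [sol_iff n _ (by omega) (by omega)]
    have : ((n : ℤ) + ((p : ℤ) - n)).toNat = p := by omega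
    rw [this]
    exact ⟨a3, a4⟩
  · intro p _ p' _ hpp
    omega
  · intro x hx
    rw [mem_filter, mem_Ioc] at hx
    obtain ⟨⟨a1, a2⟩, a3⟩ := hx
    rw [sol_iff n _ (by omega) (by omega)] at a3
    refine ⟨((n : ℤ) + x).toNat, ?_, by omega⟩
    rw [mem_filter, mem_Ioc]
    exact ⟨⟨by omega, by omega⟩, a3⟩

lemma good_of_win (η : ℝ) (W n : ℕ) (h : Pool.Agent.W93.PG.WinP η W (2 * n)) : Good η W n := by
  intro y₁ y₂ h1 h2 h3 h4
  obtain ⟨u₁, hu1⟩ : ∃ u : ℕ, (u : ℤ) = (n : ℤ) + y₁ := ⟨((n : ℤ) + y₁).toNat, by omega⟩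
  obtain ⟨u₂, hu2⟩ : ∃ u : ℕ, (u : ℤ) = (n : ℤ) + y₂ := ⟨((n : ℤ) + y₂).toNat, by omega⟩
  have hu1r : (u₁ : ℝ) = n + y₁ := by exact_mod_cast hu1
  have hu2r : (u₂ : ℝ) = n + y₂ := by exact_mod_cast hu2
  have e2 : (u₂ : ℝ) - u₁ = (y₂ : ℝ) - y₁ := by rw [hu1r, hu2r]; ring
  have h6 := h u₁ u₂ (by omega) (by omega) (by rw [e2]; push_cast; exact h4)
  rw [e2, count_eq n y₁ y₂ h1 h3 u₁ u₂ hu1 hu2] at h6
  push_cast at h6
  exact h6

open Classical in
/-- For all `ε, η > 0`, `W`, `U` and all large `X`, all sequences `ψ` and all `K` with `Uncorrelated ε X K ψ`, all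
real `β` and all `δ` with `4 / K ≤ δ ≤ 1 / 6`: there are at least `δ X / 51` integers `n ≤ X` for which `ψ(n)` is at a
distance of at most `δ` from `β` modulo one, and all but a proportion `1 / (log X) ^ U` of them are good: the
totient system for `n` has the predicted number of solutions in all intervals. -/
theorem result (ε η : ℝ) (hε : 0 < ε) (hη : 0 < η) (W U : ℕ) :
    ∃ X₀ : ℕ, ∀ X : ℕ, X₀ ≤ X → ∀ (ψ : ℕ → ℝ) (K : ℕ), Uncorrelated ε X K ψ →
      ∀ β δ : ℝ, 0 < δ → δ ≤ 1 / 6 → 4 / δ ≤ K →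
        δ * X / 51 ≤ ((target X ψ β δ).card : ℝ) ∧
        (((target X ψ β δ).filter (fun n => ¬ Good η W n)).card : ℝ) ≤
          ((target X ψ β δ).card : ℝ) / Real.log X ^ U := by
  obtain ⟨X₀, h⟩ := Pool.Agent.H566.nonlinear_double ε η hε hη W U 0
    (fun m => Pool.Agent.W93.PG.WinP η W m) (fun m _ _ hm => hm)
  refine ⟨X₀, fun X hX ψ K hψ β δ hδ hδ1 hK => ?_⟩
  obtain ⟨h1, h2⟩ := h X hX ψ K hψ β δ hδ hδ1 hK
  have e1 : (Icc 1 X).filter (fun n => Pool.Agent.H566.dist1 (ψ n - β) ≤ δ) = target X ψ β δ := rfl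
  rw [e1] at h1 h2
  refine ⟨by linarith, le_trans ?_ h2⟩
  have hsub : (target X ψ β δ).filter (fun n => ¬ Good η W n) ⊆
      (Icc 1 X).filter (fun n => Pool.Agent.H566.dist1 (ψ n - β) ≤ δ ∧ ¬ Pool.Agent.W93.PG.WinP η W (2 * n)) := by
    intro n hn
    rw [mem_filter] at hn
    obtain ⟨hn1, hn2⟩ := hn
    unfold target at hn1
    rw [mem_filter] at hn1
    rw [mem_filter]
    exact ⟨hn1.1, hn1.2, fun hw => hn2 (good_of_win η W n hw)⟩
  exact_mod_cast card_le_card hsub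

end Pool.Agent.Results.MP_967f73_nt.ArcTargets
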