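import Mathlib
import Pool.Agent.H566.MGl

/-!
Colour the primes with `K` colours and ask for `n = p + q` with `p` and `q` primes of the same colour, `|p - q| ≤ H`.
For every interval of length `H ≥ N / (log N)^A` below `N`, uniformly over all the colourings, at least a proportion
`1/K - ε` of the even numbers of the interval have at least `c H / (log N)^2` such representations.
For two colours the constant `1/2` is the best possible: colouring the primes by their residue modulo `4`,
no multiple of `4` other than `4` is a sum of two primes of the same colour.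
-/

set_option autoImplicit false

namespace Pool.Agent.Results.MP_967f73_nt.MonochromaticPairs

open Finset

/-- the number of pairs `(p, q)` of primes of the same colour with `p + q = n` and `|p - q| ≤ D` -/
def reps {K : ℕ} (χ : ℕ → Fin K) (D n : ℕ) : ℕ :=
  ((antidiagonal n).filter (fun q => q.1.Prime ∧ q.2.Prime ∧ χ q.1 = χ q.2 ∧ q.1 ≤ q.2 + D ∧ q.2 ≤ q.1 + D)).card

theorem result :
    (∀ K : ℕ, 1 ≤ K → ∀ ε : ℝ, 0 < ε → ∀ A : ℕ, ∃ c : ℝ, 0 < c ∧ ∃ N₀ : ℕ, ∀ N : ℕ, N₀ ≤ N →
      ∀ χ : ℕ → Fin K, ∀ M H : ℕ, M + H ≤ N → (N : ℝ) / Real.log N ^ A ≤ H →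
        (1 / (K : ℝ) - ε) * ((H : ℝ) / 2) ≤
          (((Ioc M (M + H)).filter (fun n => Even n ∧ c * H / Real.log N ^ 2 ≤ reps χ H n)).card : ℝ)) ∧
    (∃ χ : ℕ → Fin 2, ∀ D n : ℕ, 4 ∣ n → n ≠ 4 → reps χ D n = 0) := by
  constructor
  · exact Pool.Agent.H566.mono_density
  · refine ⟨fun p => if p % 4 = 1 then 0 else 1, fun D n h4 hn => ?_⟩
    unfold reps
    rw [card_eq_zero, filter_eq_empty_iff]
    rintro ⟨p, q⟩ hpq ⟨hp, hq, hc, _⟩
    rw [HasAntidiagonal.mem_antidiagonal] at hpq
    simp only at hpq hp hq hc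
    have hp2 := hp.eq_two_or_odd
    have hq2 := hq.eq_two_or_odd
    have hc' : p % 4 = 1 ↔ q % 4 = 1 := by
      by_cases h1 : p % 4 = 1
      · by_cases h2 : q % 4 = 1
        · tauto
        · rw [if_pos h1, if_neg h2] at hc
          simp at hc
      · by_cases h2 : q % 4 = 1
        · rw [if_neg h1, if_pos h2] at hc
          simp at hc
        · tauto
    omega

end Pool.Agent.Results.MP_967f73_nt.MonochromaticPairs
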