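import Mathlib
import Pool.Agent.H566.KM.All
import Pool.Agent.H566.KM.Upp2

/-!
Sums of two primes of the same colour: how many even numbers remain, as a function of the number of colours.
-/

set_option autoImplicit false

namespace Pool.Agent.Results.MP_967f73_nt.MonochromaticProportion

open Finset

/-- number of ordered pairs of primes of the same colour with sum `n` -/
def reps {K : ℕ} (χ : ℕ → Fin K) (n : ℕ) : ℕ :=
  ((antidiagonal n).filter fun p => p.1.Prime ∧ p.2.Prime ∧ χ p.1 = χ p.2).card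

/-- the even `n ≤ N` with at least `c * N / (log N) ^ 2` such pairs -/
noncomputable def rich {K : ℕ} (χ : ℕ → Fin K) (c : ℝ) (N : ℕ) : Finset ℕ :=
  (Icc 1 N).filter fun n => Even n ∧ c * (N : ℝ) / Real.log N ^ 2 ≤ (reps χ n : ℝ)

/-- the even `n ≤ N` with at least one such pair -/
def sums {K : ℕ} (χ : ℕ → Fin K) (N : ℕ) : Finset ℕ :=
  (Icc 1 N).filter fun n => Even n ∧ 0 < reps χ n

/-- Every colouring of the primes with `K` colours: at least a proportion `1 / (C (1 + log K) ^ C)` of the even numbers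
are, in many ways, sums of two primes of the same colour; for some colouring at most a proportion
`C / log (1 + log K)` of them are such sums. -/
theorem result :
    (∃ C : ℕ, 0 < C ∧ ∀ K : ℕ, 1 ≤ K → ∃ c : ℝ, 0 < c ∧ ∃ N₀ : ℕ, ∀ N : ℕ, N₀ ≤ N → ∀ χ : ℕ → Fin K,
      (N : ℝ) / (C * (1 + Real.log K) ^ C) ≤ ((rich χ c N).card : ℝ)) ∧
    (∃ C : ℕ, 0 < C ∧ ∀ K : ℕ, 3 ≤ K → ∃ χ : ℕ → Fin K, ∃ N₀ : ℕ, ∀ N : ℕ, N₀ ≤ N →
      ((sums χ N).card : ℝ) ≤ C * (N : ℝ) / Real.log (1 + Real.log K)) := by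
  refine ⟨Pool.Agent.H566.KM.f_LOW, ?_⟩
  obtain ⟨C, hC, h⟩ := Pool.Agent.H566.KM.upp2
  refine ⟨C, hC, fun K hK => ?_⟩
  obtain ⟨χ, N0, h1⟩ := h K hK
  refine ⟨χ, N0, fun N hN => ?_⟩
  rw [add_comm 1 (Real.log K)]
  exact h1 N hN

end Pool.Agent.Results.MP_967f73_nt.MonochromaticProportion
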