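import Pool.Agent.H560.MQ.Sums

/-!
# The binary Goldbach problem with a small prime: the expected number of solutions fails for `n - x ≤ (log 2n) ^ t`

Author: helper560.

For the integral solutions `x` of the system `φ(n - x) + 1 = n - x`, `φ(n + x) + 1 = n + x` the numbers `p = n - x`
and `q = n + x` are primes with sum `2n`. The conjecture of Hardy and Littlewood, in its quantitative form for small
`p`, predicts about `S(2n) y / (log y log 2n)` solutions with `n - x ≤ y`. In the probabilistic model this holds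
for all `n` as soon as `y = (log 2n) ^ t` with `t > 2`, and for every `t > 1` up to very few exceptions.
The theorem says that it fails by a constant factor, in both directions, for every `t > 1`, and how often: for every
`κ > 0` and all large `N`, each of the two deviations occurs for at least `N exp (-(log N) ^ κ)` integers `n` between
`N / 4` and `N`. More precisely, for every `u > t` there are at least `N exp (-(log N) ^ (t / u))` such `n` with at
most `(e ^ γ ω(u) + ε)` times the expected number of solutions, and as many with at least `(e ^ γ ω(u) - ε)` times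
the expected number, `ω` Buchstab's function.

Proof. Rows of matrices over the small modulus `∏ p ≤ (log N) ^ (t / u) / 4`, for ALL classes `r` up to
`(log N) ^ t`. The sum over `r` of the numbers of the survivors is given by Buchstab's asymptotic formula and the
sum of the singular series over the classes is trivial; so there is a class with few (many) survivors in comparison
with its singular series. In the rows with many primes the primes between `(log N) ^ (t / u)` and `(log N) ^ 2`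
in the singular series are taken care of by a mean value over the row.
-/

set_option autoImplicit false

open Filter

namespace Pool.Agent.Results.MP_967f73_nt.SmallPrimeIrregularities

/-- `ω` is Buchstab's function: it is continuous on `[1, ∞)`, `u ω(u) = 1` for `1 ≤ u ≤ 2` and
`u ω(u) = 1 + ∫_1^(u-1) ω` for `u ≥ 2` -/
def IsBuchstab (ω : ℝ → ℝ) : Prop :=
  ContinuousOn ω (Set.Ici 1) ∧ (∀ u, 1 ≤ u → u ≤ 2 → u * ω u = 1) ∧
    ∀ u, 2 ≤ u → u * ω u = 1 + ∫ s in (1 : ℝ)..(u - 1), ω s

/-- the twin prime constant `∏_{p > 2} (1 - 1 / (p - 1) ^ 2)` -/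
noncomputable def twinC : ℝ :=
  ⨅ z : ℕ, ∏ p ∈ (Finset.Icc 3 z).filter Nat.Prime, (1 - 1 / ((p : ℝ) - 1) ^ 2)

/-- the singular series `2 C₂ ∏_{p ∣ m, p > 2} (p - 1) / (p - 2)` of an even number `m` -/
noncomputable def sing (m : ℕ) : ℝ :=
  2 * twinC * ∏ p ∈ m.primeFactors.filter (fun p => 2 < p), ((p : ℝ) - 1) / ((p : ℝ) - 2)

/-- `x` is an integral solution of the system `φ(n - x) + 1 = n - x`, `φ(n + x) + 1 = n + x`, with
`n - x ≥ 1` and `n + x ≥ 1` -/
def Solves (n : ℕ) (x : ℤ) : Prop :=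
  1 ≤ (n : ℤ) - x ∧ 1 ≤ (n : ℤ) + x ∧ ((((n : ℤ) - x).toNat.totient : ℤ) + 1 = (n : ℤ) - x) ∧
    ((((n : ℤ) + x).toNat.totient : ℤ) + 1 = (n : ℤ) + x)

open Classical in
/-- the number of the solutions with `n - x ≤ y` -/
noncomputable def sols (n : ℕ) (y : ℝ) : ℕ :=
  ((Finset.Ioo (-(n : ℤ)) n).filter (fun x => Solves n x ∧ (n : ℝ) - x ≤ y)).card

/-- the expected number `S(2n) y / (log y log 2n)` -/
noncomputable def expected (n : ℕ) (y : ℝ) : ℝ := sing (2 * n) * (y / (Real.log y * Real.log ((2 * n : ℕ) : ℝ)))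

/-- the bound `(log 2n) ^ t` for the small prime -/
noncomputable def bd (t : ℝ) (n : ℕ) : ℝ := (Real.log ((2 * n : ℕ) : ℝ)) ^ t

open Classical in
/-- the number of the `N / 4 < n ≤ N` with at most `a` times the expected number of solutions -/
noncomputable def few (t a : ℝ) (N : ℕ) : ℕ :=
  ((Finset.Icc 1 N).filter (fun n : ℕ => (N : ℝ) / 4 < n ∧ (sols n (bd t n) : ℝ) ≤ a * expected n (bd t n))).card

open Classical in
/-- the number of the `N / 4 < n ≤ N` with at least `a` times the expected number of solutions -/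
noncomputable def many (t a : ℝ) (N : ℕ) : ℕ :=
  ((Finset.Icc 1 N).filter (fun n : ℕ => (N : ℝ) / 4 < n ∧ a * expected n (bd t n) ≤ (sols n (bd t n) : ℝ))).card

theorem tot_iff (k : ℕ) (hk : 1 ≤ k) : k.totient + 1 = k ↔ k.Prime := by
  constructor
  · intro h
    have h1 : k.totient = k - 1 := by omega
    rcases Nat.lt_or_ge k 2 with h2 | h2
    · have : k = 1 := by omega
      subst this
      simp at h
    · exact (Nat.totient_eq_iff_prime (by omega)).1 h1
  · intro h
    rw [Nat.totient_prime h]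
    omega

/-- the solutions are the representations `2n = p + q` with a prime `p ≤ y` -/
theorem sols_eq (n : ℕ) (y : ℝ) (hy : 0 ≤ y) : sols n y = Pool.Agent.T2H52.MG.reps (2 * n) y := by
  classical
  unfold sols Pool.Agent.T2H52.MG.reps
  symm
  apply Finset.card_bij (fun (p : ℕ) _ => (n : ℤ) - (p : ℤ))
  · intro p hp
    rw [Finset.mem_filter, Finset.mem_Icc] at hp
    obtain ⟨⟨h1, h2⟩, h3, h4⟩ := hp
    have h5 := h4.two_le
    have h6 : ((n : ℤ) - ((n : ℤ) - (p : ℤ))).toNat = p := by omega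
    have h7 : ((n : ℤ) + ((n : ℤ) - (p : ℤ))).toNat = 2 * n - p := by omega
    have t1 := (tot_iff p h1).2 h3
    have t2 := (tot_iff (2 * n - p) (by omega)).2 h4
    rw [Finset.mem_filter, Finset.mem_Ioo]
    refine ⟨⟨by omega, by omega⟩, ⟨by omega, by omega, ?_, ?_⟩, ?_⟩
    · rw [h6]; omega
    · rw [h7]; omega
    · push_cast
      have : (p : ℝ) ≤ y := (Nat.cast_le.2 h2).trans (Nat.floor_le hy)
      linarith
  · intro a _ b _ hab
    have : (a : ℤ) = b := by linarith
    exact_mod_cast this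
  · intro x hx
    rw [Finset.mem_filter, Finset.mem_Ioo] at hx
    obtain ⟨⟨h1, h2⟩, ⟨h3, h4, h5, h6⟩, h7⟩ := hx
    have e1 : (((n : ℤ) - x).toNat : ℤ) = (n : ℤ) - x := Int.toNat_of_nonneg (by omega)
    have e2 : (((n : ℤ) + x).toNat : ℤ) = (n : ℤ) + x := Int.toNat_of_nonneg (by omega)
    refine ⟨((n : ℤ) - x).toNat, ?_, by omega⟩
    rw [Finset.mem_filter, Finset.mem_Icc]
    refine ⟨⟨by omega, ?_⟩, ?_, ?_⟩
    · apply Nat.le_floor
      have e3 : ((((n : ℤ) - x).toNat : ℕ) : ℝ) = (n : ℝ) - x := by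
        have : (((((n : ℤ) - x).toNat : ℕ) : ℤ) : ℝ) = (((n : ℤ) - x : ℤ) : ℝ) := by rw [e1]
        push_cast at this
        exact_mod_cast this
      rw [e3]
      exact h7
    · rw [← tot_iff _ (by omega)]
      omega
    · have e4 : 2 * n - ((n : ℤ) - x).toNat = ((n : ℤ) + x).toNat := by omega
      rw [e4, ← tot_iff _ (by omega)]
      omega

theorem isBuchstab_om : IsBuchstab Pool.Agent.R529.BU.om :=
  ⟨Pool.Agent.R529.BU.om_cont.continuousOn, Pool.Agent.R529.BU.om_one_two, Pool.Agent.R529.BU.om_two⟩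

theorem unique_aux (ω : ℝ → ℝ) (h : IsBuchstab ω) (n : ℕ) :
    ∀ u : ℝ, 1 ≤ u → u ≤ n + 2 → ω u = Pool.Agent.R529.BU.om u := by
  obtain ⟨-, h1, h2⟩ := h
  have hbase : ∀ u : ℝ, 1 ≤ u → u ≤ 2 → ω u = Pool.Agent.R529.BU.om u := by
    intro u hu1 hu2
    have a1 := h1 u hu1 hu2
    have a2 := Pool.Agent.R529.BU.om_one_two u hu1 hu2
    exact mul_left_cancel₀ (show u ≠ 0 by linarith) (a1.trans a2.symm)
  induction n with
  | zero =>
    intro u hu1 hu2
    exact hbase u hu1 (by push_cast at hu2; linarith)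
  | succ n ih =>
    intro u hu1 hu2
    rcases le_total u 2 with h3 | h3
    · exact hbase u hu1 h3
    · have a1 := h2 u h3
      have a2 := Pool.Agent.R529.BU.om_two u h3
      have a3 : ∫ s in (1 : ℝ)..(u - 1), ω s = ∫ s in (1 : ℝ)..(u - 1), Pool.Agent.R529.BU.om s := by
        apply intervalIntegral.integral_congr
        intro s hs
        rw [Set.uIcc_of_le (by linarith)] at hs
        push_cast at hu2
        exact ih s hs.1 (by linarith [hs.2])
      rw [a3, ← a2] at a1
      exact mul_left_cancel₀ (show u ≠ 0 by linarith) a1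

theorem unique (ω : ℝ → ℝ) (h : IsBuchstab ω) (u : ℝ) (hu : 1 ≤ u) : ω u = Pool.Agent.R529.BU.om u :=
  unique_aux ω h ⌈u⌉₊ u hu (by linarith [Nat.le_ceil u])

theorem expected_nonneg (n : ℕ) (t : ℝ) (ht : 0 < t) (hh : 2 ≤ n) : 0 ≤ expected n (bd t n) := by
  have h0 : 3 ≤ 2 * n := by omega
  have h1 : (3 : ℝ) ≤ ((2 * n : ℕ) : ℝ) := by exact_mod_cast h0
  have h2 : 1 ≤ Real.log ((2 * n : ℕ) : ℝ) := by
    rw [Real.le_log_iff_exp_le (by linarith)]
    have := Real.exp_one_lt_d9
    linarith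
  have h3 : 1 ≤ bd t n := Real.one_le_rpow h2 ht.le
  have h4 : 0 ≤ Real.log (bd t n) := Real.log_nonneg h3
  have h5 : 0 < sing (2 * n) := Pool.Agent.T2H52.MG.sing_pos (2 * n)
  unfold expected
  positivity

theorem few_mono (t a b : ℝ) (N : ℕ) (ht : 0 < t) (hN : 9 ≤ N) (h : a ≤ b) : few t a N ≤ few t b N := by
  classical
  unfold few
  apply Finset.card_le_card
  intro n hn
  rw [Finset.mem_filter] at hn ⊢
  obtain ⟨h1, h2, h4⟩ := hn
  refine ⟨h1, h2, h4.trans ?_⟩
  have hn3 : 2 ≤ n := by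
    have h5 : (9 : ℝ) ≤ N := by exact_mod_cast hN
    have h6 : (2 : ℝ) ≤ n := by linarith
    exact_mod_cast h6
  exact mul_le_mul_of_nonneg_right h (expected_nonneg n t ht hn3)

theorem many_anti (t a b : ℝ) (N : ℕ) (ht : 0 < t) (hN : 9 ≤ N) (h : a ≤ b) : many t b N ≤ many t a N := by
  classical
  unfold many
  apply Finset.card_le_card
  intro n hn
  rw [Finset.mem_filter] at hn ⊢
  obtain ⟨h1, h2, h4⟩ := hn
  refine ⟨h1, h2, le_trans ?_ h4⟩
  have hn3 : 2 ≤ n := by
    have h5 : (9 : ℝ) ≤ N := by exact_mod_cast hN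
    have h6 : (2 : ℝ) ≤ n := by linarith
    exact_mod_cast h6
  exact mul_le_mul_of_nonneg_right h (expected_nonneg n t ht hn3)

theorem transfer (θ : ℝ) (hθ : 0 < θ) (P : ℕ → Prop)
    (h : ∀ᶠ X : ℝ in atTop, ∃ M : Finset ℕ, (∀ m ∈ M, Even m ∧ X < m ∧ (m : ℝ) < 4 * X ∧ P m) ∧
      X * Real.exp (-(1 / 2 * (Real.log X) ^ θ)) ≤ M.card) :
    ∀ᶠ N : ℕ in atTop, ∃ M : Finset ℕ, (∀ n ∈ M, n ∈ Finset.Icc 1 N ∧ (N : ℝ) / 4 < n ∧ P (2 * n)) ∧
      (N : ℝ) * Real.exp (-((Real.log N) ^ θ)) ≤ M.card := by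
  classical
  have h1 : Tendsto (fun N : ℕ => (N : ℝ) / 2) atTop atTop :=
    tendsto_natCast_atTop_atTop.atTop_div_const (by norm_num)
  have hlog : Tendsto (fun n : ℕ => Real.log n) atTop atTop :=
    Real.tendsto_log_atTop.comp tendsto_natCast_atTop_atTop
  have h2 : Tendsto (fun N : ℕ => Real.exp (1 / 2 * (Real.log N) ^ θ)) atTop atTop :=
    Real.tendsto_exp_atTop.comp (((tendsto_rpow_atTop hθ).comp hlog).const_mul_atTop (by norm_num))
  filter_upwards [h1.eventually h, h2.eventually_ge_atTop 2, Filter.eventually_ge_atTop 2] with N g1 g2 g3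
  obtain ⟨M, hM1, hM2⟩ := g1
  have hN3 : (2 : ℝ) ≤ N := by exact_mod_cast g3
  refine ⟨M.image (fun m => m / 2), ?_, ?_⟩
  · intro n hn
    obtain ⟨m, hm, rfl⟩ := Finset.mem_image.1 hn
    obtain ⟨⟨b, hb⟩, a2, a3, a4⟩ := hM1 m hm
    have e1 : m / 2 = b := by omega
    have e2 : m = 2 * (m / 2) := by omega
    rw [← e2]
    have e3 : (m : ℝ) = 2 * ((m / 2 : ℕ) : ℝ) := by exact_mod_cast e2
    refine ⟨Finset.mem_Icc.2 ⟨?_, ?_⟩, ?_, a4⟩
    · have : (0 : ℝ) < ((m / 2 : ℕ) : ℝ) := by linarith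
      exact_mod_cast this
    · have : ((m / 2 : ℕ) : ℝ) ≤ N := by linarith
      exact_mod_cast this
    · linarith
  · rw [Finset.card_image_of_injOn]
    · refine le_trans ?_ hM2
      have hl1 : 0 ≤ Real.log ((N : ℝ) / 2) := Real.log_nonneg (by linarith)
      have hl2 : Real.log ((N : ℝ) / 2) ≤ Real.log N := Real.log_le_log (by linarith) (by linarith)
      have hl3 : (Real.log ((N : ℝ) / 2)) ^ θ ≤ (Real.log N) ^ θ := Real.rpow_le_rpow hl1 hl2 hθ.le
      have hsplit : Real.exp (-((Real.log N) ^ θ)) * Real.exp (1 / 2 * (Real.log N) ^ θ) =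
          Real.exp (-(1 / 2 * (Real.log N) ^ θ)) := by
        rw [← Real.exp_add]
        congr 1
        ring
      calc (N : ℝ) * Real.exp (-((Real.log N) ^ θ)) = (N : ℝ) / 2 * (Real.exp (-((Real.log N) ^ θ)) * 2) := by ring
        _ ≤ (N : ℝ) / 2 * (Real.exp (-((Real.log N) ^ θ)) * Real.exp (1 / 2 * (Real.log N) ^ θ)) := by gcongr
        _ = (N : ℝ) / 2 * Real.exp (-(1 / 2 * (Real.log N) ^ θ)) := by rw [hsplit]
        _ ≤ (N : ℝ) / 2 * Real.exp (-(1 / 2 * (Real.log ((N : ℝ) / 2)) ^ θ)) := by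
            apply mul_le_mul_of_nonneg_left _ (by positivity)
            apply Real.exp_le_exp.2
            linarith
    · intro a ha b hb hab
      obtain ⟨⟨c, hc⟩, -⟩ := hM1 a (Finset.mem_coe.1 ha)
      obtain ⟨⟨d, hd⟩, -⟩ := hM1 b (Finset.mem_coe.1 hb)
      simp only at hab
      omega

theorem partA (t u ε : ℝ) (ht : 1 < t) (htu : t < u) (hε : 0 < ε) : ∀ᶠ N : ℕ in atTop,
    (N : ℝ) * Real.exp (-((Real.log N) ^ (t / u))) ≤
        few t (Real.exp Real.eulerMascheroniConstant * Pool.Agent.R529.BU.om u + ε) N ∧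
      (N : ℝ) * Real.exp (-((Real.log N) ^ (t / u))) ≤
        many t (Real.exp Real.eulerMascheroniConstant * Pool.Agent.R529.BU.om u - ε) N := by
  classical
  have hu0 : 0 < u := by linarith
  have h1 : 0 < t / u := by positivity
  have h2 : t / u < 1 := by rw [div_lt_one hu0]; exact htu
  have h4 : t / (t / u) = u := by field_simp
  have hw : Pool.Agent.H560.MQ.cw (t / (t / u)) = Real.exp Real.eulerMascheroniConstant * Pool.Agent.R529.BU.om u := by
    unfold Pool.Agent.H560.MQ.cw
    rw [h4]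
  have hf := transfer (t / u) h1 _ (Pool.Agent.H560.MQ.sums_few t (t / u) ε h1 h2 ht hε)
  have hm := transfer (t / u) h1 _ (Pool.Agent.H560.MQ.sums_many t (t / u) ε h1 h2 ht hε)
  rw [hw] at hf hm
  have hbd : ∀ n : ℕ, 0 ≤ bd t n := fun n => Real.rpow_nonneg (Real.log_natCast_nonneg _) _
  filter_upwards [hf, hm] with N hN1 hN2
  obtain ⟨M1, a1, a2⟩ := hN1
  obtain ⟨M2, b1, b2⟩ := hN2
  constructor
  · refine a2.trans ?_
    have h5 : M1.card ≤ few t (Real.exp Real.eulerMascheroniConstant * Pool.Agent.R529.BU.om u + ε) N := by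
      unfold few
      apply Finset.card_le_card
      intro m hm
      obtain ⟨c1, c2, c4⟩ := a1 m hm
      refine Finset.mem_filter.2 ⟨c1, c2, ?_⟩
      rw [sols_eq m _ (hbd m)]
      exact c4
    exact_mod_cast h5
  · refine b2.trans ?_
    have h5 : M2.card ≤ many t (Real.exp Real.eulerMascheroniConstant * Pool.Agent.R529.BU.om u - ε) N := by
      unfold many
      apply Finset.card_le_card
      intro m hm
      obtain ⟨c1, c2, c4⟩ := b1 m hm
      refine Finset.mem_filter.2 ⟨c1, c2, ?_⟩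
      rw [sols_eq m _ (hbd m)]
      exact c4
    exact_mod_cast h5

theorem partB (A : ℝ) : (∃ u, A ≤ u ∧ Real.exp Real.eulerMascheroniConstant * Pool.Agent.R529.BU.om u < 1) ∧
    (∃ u, A ≤ u ∧ 1 < Real.exp Real.eulerMascheroniConstant * Pool.Agent.R529.BU.om u) := by
  have hE : Real.exp Real.eulerMascheroniConstant * Real.exp (-Real.eulerMascheroniConstant) = 1 := by
    rw [← Real.exp_add, add_neg_cancel, Real.exp_zero]
  have hE0 := Real.exp_pos Real.eulerMascheroniConstant
  constructor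
  · obtain ⟨u, h1, h2⟩ := Pool.Agent.R529.BU.om_lt A
    refine ⟨u, h1, ?_⟩
    rw [← hE]
    exact mul_lt_mul_of_pos_left h2 hE0
  · obtain ⟨u, h1, h2⟩ := Pool.Agent.R529.BU.om_gt A
    refine ⟨u, h1, ?_⟩
    rw [← hE]
    exact mul_lt_mul_of_pos_left h2 hE0

/-- The number of the solutions `x` of the system with `n - x ≤ (log 2n) ^ t` deviates from the expected number by a
constant factor, in both directions, for every `t > 1`, and frequently. -/
theorem result : (∃ ω, IsBuchstab ω) ∧ ∀ ω, IsBuchstab ω →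
    (∀ t u ε : ℝ, 1 < t → t < u → 0 < ε → ∀ᶠ N : ℕ in atTop,
      (N : ℝ) * Real.exp (-((Real.log N) ^ (t / u))) ≤ few t (Real.exp Real.eulerMascheroniConstant * ω u + ε) N ∧
      (N : ℝ) * Real.exp (-((Real.log N) ^ (t / u))) ≤ many t (Real.exp Real.eulerMascheroniConstant * ω u - ε) N) ∧
    (∀ A : ℝ, (∃ u, A ≤ u ∧ Real.exp Real.eulerMascheroniConstant * ω u < 1) ∧
      (∃ u, A ≤ u ∧ 1 < Real.exp Real.eulerMascheroniConstant * ω u)) ∧
    (∀ t κ : ℝ, 1 < t → 0 < κ → ∃ c : ℝ, 0 < c ∧ ∀ᶠ N : ℕ in atTop,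
      (N : ℝ) * Real.exp (-((Real.log N) ^ κ)) ≤ few t (1 - c) N ∧
      (N : ℝ) * Real.exp (-((Real.log N) ^ κ)) ≤ many t (1 + c) N) := by
  refine ⟨⟨_, isBuchstab_om⟩, fun ω hω => ⟨?_, ?_, ?_⟩⟩
  · intro t u ε ht htu hε
    rw [unique ω hω u (by linarith)]
    exact partA t u ε ht htu hε
  · intro A
    obtain ⟨⟨u, h1, h2⟩, v, h3, h4⟩ := partB (max 1 A)
    refine ⟨⟨u, (le_max_right _ _).trans h1, ?_⟩, v, (le_max_right _ _).trans h3, ?_⟩
    · rw [unique ω hω u ((le_max_left _ _).trans h1)]; exact h2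
    · rw [unique ω hω v ((le_max_left _ _).trans h3)]; exact h4
  · intro t κ ht hκ
    obtain ⟨⟨u, h1, h2⟩, v, h3, h4⟩ := partB (max (t + 1) (t / κ))
    set a := Real.exp Real.eulerMascheroniConstant * Pool.Agent.R529.BU.om u with ha
    set b := Real.exp Real.eulerMascheroniConstant * Pool.Agent.R529.BU.om v with hb
    have hu1 : t + 1 ≤ u := (le_max_left _ _).trans h1
    have hv1 : t + 1 ≤ v := (le_max_left _ _).trans h3
    have hu2 : t / u ≤ κ := by
      have := (le_max_right (t + 1) (t / κ)).trans h1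
      rw [div_le_iff₀ hκ] at this
      rw [div_le_iff₀ (by linarith)]
      linarith
    have hv2 : t / v ≤ κ := by
      have := (le_max_right (t + 1) (t / κ)).trans h3
      rw [div_le_iff₀ hκ] at this
      rw [div_le_iff₀ (by linarith)]
      linarith
    refine ⟨min ((1 - a) / 2) ((b - 1) / 2), lt_min (by linarith) (by linarith), ?_⟩
    have hlog : Tendsto (fun n : ℕ => Real.log n) atTop atTop :=
      Real.tendsto_log_atTop.comp tendsto_natCast_atTop_atTop
    filter_upwards [partA t u ((1 - a) / 2) ht (by linarith) (by linarith),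
      partA t v ((b - 1) / 2) ht (by linarith) (by linarith), hlog.eventually_ge_atTop 1,
      Filter.eventually_ge_atTop 9] with N hN1 hN2 hN3 hN9
    constructor
    · have h5 : (N : ℝ) * Real.exp (-((Real.log N) ^ κ)) ≤ (N : ℝ) * Real.exp (-((Real.log N) ^ (t / u))) := by
        apply mul_le_mul_of_nonneg_left _ (Nat.cast_nonneg _)
        apply Real.exp_le_exp.2
        exact neg_le_neg (Real.rpow_le_rpow_of_exponent_le hN3 hu2)
      refine h5.trans (hN1.1.trans ?_)
      have h6 := few_mono t (a + (1 - a) / 2) (1 - min ((1 - a) / 2) ((b - 1) / 2)) N (by linarith) hN9 (by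
        have := min_le_left ((1 - a) / 2) ((b - 1) / 2)
        linarith)
      exact_mod_cast h6
    · have h5 : (N : ℝ) * Real.exp (-((Real.log N) ^ κ)) ≤ (N : ℝ) * Real.exp (-((Real.log N) ^ (t / v))) := by
        apply mul_le_mul_of_nonneg_left _ (Nat.cast_nonneg _)
        apply Real.exp_le_exp.2
        exact neg_le_neg (Real.rpow_le_rpow_of_exponent_le hN3 hv2)
      refine h5.trans (hN2.2.trans ?_)
      have h6 := many_anti t (1 + min ((1 - a) / 2) ((b - 1) / 2)) (b - (b - 1) / 2) N (by linarith) hN9 (by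
        have := min_le_right ((1 - a) / 2) ((b - 1) / 2)
        linarith)
      exact_mod_cast h6

end Pool.Agent.Results.MP_967f73_nt.SmallPrimeIrregularities
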